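import Pool.Agent.Lib.helper22.SeqSpace

namespace Pool.Agent.H.MP_814c9d_an

open Finset Pool.Agent.Lib.helper22.SeqSpace

theorem signs {V α : Type} [NormedAddCommGroup V] [InnerProductSpace ℝ V] (h : α → V)
    (F : Finset α) :
    ∃ s : α → ℝ, (∀ a, |s a| = 1) ∧ ‖∑ a ∈ F, s a • h a‖ ^ 2 ≤ ∑ a ∈ F, ‖h a‖ ^ 2 := by
  classical
  induction F using Finset.induction_on with
  | empty => exact ⟨fun _ => 1, by simp, by simp⟩
  | insert j F hj ih =>
    obtain ⟨s, h1, h2⟩ := ih
    have h3 := parallelogram_law_with_norm ℝ (∑ a ∈ F, s a • h a) (h j)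
    obtain ⟨t, ht, h4⟩ : ∃ t : ℝ, |t| = 1 ∧ ‖∑ a ∈ F, s a • h a + t • h j‖ ^ 2 ≤
        ‖∑ a ∈ F, s a • h a‖ ^ 2 + ‖h j‖ ^ 2 := by
      rcases le_total (‖∑ a ∈ F, s a • h a + h j‖ ^ 2) (‖∑ a ∈ F, s a • h a - h j‖ ^ 2) with c | c
      · exact ⟨1, abs_one, by rw [one_smul]; linarith⟩
      · exact ⟨-1, by simp, by rw [neg_one_smul, ← sub_eq_add_neg]; linarith⟩
    refine ⟨Function.update s j t, fun a => ?_, ?_⟩
    · by_cases c : a = j
      · rw [c, Function.update_self, ht]
      · rw [Function.update_of_ne c, h1]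
    · rw [sum_insert hj, sum_insert hj, Function.update_self, sum_congr rfl fun a ha => by
        rw [Function.update_of_ne (ne_of_mem_of_not_mem ha hj)], add_comm]
      linarith

theorem small {I α : Type} (a : α → I →₀ ℝ) (F : Finset α) (N : ℝ)
    (h : ∀ j ∈ F, ∑ i ∈ (a j).support, |a j i| ≤ N) :
    ∃ s : α → ℝ, (∀ j, |s j| = 1) ∧ ∀ i, (∑ j ∈ F, s j • a j) i ^ 2 ≤ F.card * N ^ 2 := by
  classical
  let L := Finsupp.linearCombination ℝ fun i : I => (lp.single 2 i 1 : lp (fun _ : I => ℝ) 2)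
  have L1 : ∀ b i, L b i = b i := fun b i => by
    induction b using Finsupp.induction_linear with
    | zero => simp
    | add b c h1 h2 => rw [map_add, lp.coeFn_add, Pi.add_apply, h1, h2, Finsupp.add_apply]
    | single k r => simp [L, lp.single_apply, Pi.single_apply, Finsupp.single_apply, eq_comm]
  obtain ⟨s, s1, s2⟩ := signs (fun j => L (a j)) F
  refine ⟨s, s1, fun i => ?_⟩
  rw [← L1, ← sq_abs]
  refine (pow_le_pow_left₀ (abs_nonneg _)
    (lp.norm_apply_le_norm two_ne_zero (L (∑ j ∈ F, s j • a j)) i) 2).trans ?_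
  rw [map_sum]
  simp only [map_smul]
  rw [← nsmul_eq_mul]
  refine s2.trans (sum_le_card_nsmul _ _ _ fun j hj => pow_le_pow_left₀ (norm_nonneg _)
    ((norm_sum_le _ _).trans (le_trans (le_of_eq (sum_congr rfl fun i _ => ?_)) (h j hj))) 2)
  show ‖a j i • (lp.single 2 i 1 : lp (fun _ : I => ℝ) 2)‖ = _
  rw [norm_smul, lp.norm_single two_pos]; simp

variable (Γ : Type)

def T : Tests (ℕ × Γ) where
  G := {t | (∀ i, |t i| ≤ 1) ∧ ∀ (n : ℕ) (s : Finset (ℕ × Γ)), (∀ i ∈ s, i.1 = n) →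
    ∑ i ∈ s, |t i| ≤ n + 1}
  bd := fun _ h => h.1
  single_mem := fun j => by
    classical
    have a : ∀ i, |(Finsupp.single j (1 : ℝ)) i| = if j = i then 1 else 0 := fun i => by
      rw [Finsupp.single_apply]; split_ifs <;> simp
    refine ⟨fun i => by rw [a]; split_ifs <;> simp, fun n s _ => ?_⟩
    simp only [a, sum_ite_eq]
    split_ifs <;> linarith [(Nat.cast_nonneg n : (0 : ℝ) ≤ n)]

def Y : Type := X (T Γ)
noncomputable instance : NormedAddCommGroup (Y Γ) := inferInstanceAs (NormedAddCommGroup (X (T Γ)))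
noncomputable instance : NormedSpace ℝ (Y Γ) := inferInstanceAs (NormedSpace ℝ (X (T Γ)))
instance : CompleteSpace (Y Γ) := inferInstanceAs (CompleteSpace (X (T Γ)))

variable {Γ}

noncomputable def b (i : ℕ × Γ) : Y Γ := x (T Γ) i
noncomputable def φ (i : ℕ × Γ) : Y Γ →L[ℝ] ℝ := f (T Γ) i
noncomputable def J : ((ℕ × Γ) →₀ ℝ) →ₗ[ℝ] Y Γ := Finsupp.linearCombination ℝ b

theorem φ_J (a : (ℕ × Γ) →₀ ℝ) (i) : φ i (J a) = a i := by
  classical
  induction a using Finsupp.induction_linear with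
  | zero => simp
  | add b c h1 h2 => rw [map_add, map_add, h1, h2, Finsupp.add_apply]
  | single k r =>
    rw [J, Finsupp.linearCombination_single, map_smul, show φ i (b k) = _ from f_x _ i k]
    simp [Finsupp.single_apply, eq_comm]

theorem dJ (v : Y Γ) {ε : ℝ} (h : 0 < ε) : ∃ a, ‖v - J a‖ < ε := by
  obtain ⟨w, h1, h2⟩ := Metric.mem_closure_iff.1 (dense_x (T Γ) v) ε h
  rw [← Finsupp.range_linearCombination] at h1
  obtain ⟨a, rfl⟩ := h1
  exact ⟨a, (dist_eq_norm v (J a)).symm.trans_lt h2⟩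

theorem cnt (v : Y Γ) : {i | φ i v ≠ 0}.Countable := by
  choose a ha using fun m : ℕ => dJ v (Nat.one_div_pos_of_nat (n := m))
  refine (Set.countable_iUnion fun m => (a m).support.countable_toSet).mono fun i hi => ?_
  obtain ⟨m, hm⟩ := exists_nat_one_div_lt (abs_pos.2 hi)
  refine Set.mem_iUnion.2 ⟨m, Finsupp.mem_support_iff.2 fun c => ?_⟩
  have : |φ i (v - J (a m))| ≤ ‖v - J (a m)‖ := f_le _ i _
  rw [map_sub, φ_J, c, sub_zero] at this
  linarith [ha m]

theorem niff (v : Y Γ) {r : ℝ} (hr : 0 ≤ r) : ‖v‖ ≤ r ↔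
    ∀ w ∈ (T Γ).G, |Finsupp.linearCombination ℝ (fun n => φ n v) w| ≤ r := norm_iff _ v r hr

theorem oct (j : ℕ × Γ) (y : Y Γ) (hy : φ j y = 0) (l : ℝ) :
    |l| + (1 - 1 / (j.1 + 1)) * ‖y‖ ≤ ‖l • b j + y‖ := by
  classical
  have p : (0 : ℝ) < j.1 + 1 := by positivity
  have q : 1 / (j.1 + 1 : ℝ) ≤ 1 := div_le_one_of_le₀ (by simp) p.le
  have q0 : 0 < 1 / (j.1 + 1 : ℝ) := by positivity
  set θ := 1 - 1 / (j.1 + 1 : ℝ) with hθ
  have e : ∀ i, φ i (l • b j + y) = (Pi.single j l : _ → ℝ) i + φ i y := fun i => by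
    rw [map_add, map_smul, show φ i (b j) = _ from f_x _ i j]; simp [Pi.single_apply]
  have a0 : |l| ≤ ‖l • b j + y‖ := by
    have : |φ j (l • b j + y)| ≤ ‖l • b j + y‖ := f_le _ j _
    simpa [e, hy] using this
  rw [← Real.norm_of_nonneg (r := θ) (by linarith), ← norm_smul, ← le_sub_iff_add_le',
    niff _ (sub_nonneg.2 a0)]
  intro t ht
  have a1 : ∀ σ : ℝ, |σ| = 1 → |Finsupp.linearCombination ℝ (fun n => φ n (θ • y)) t + σ * l| ≤
      ‖l • b j + y‖ := fun σ hσ => by
    have u : ∀ i, |(θ • t).update j σ i| = if i = j then 1 else θ * |t i| := fun i => by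
      rw [Finsupp.update_apply]
      split_ifs
      · exact hσ
      · rw [Finsupp.smul_apply, smul_eq_mul, abs_mul, abs_of_nonneg (by linarith)]
    refine le_trans (le_of_eq (congrArg abs ?_)) ((niff _ (norm_nonneg _)).1 le_rfl
      ((θ • t).update j σ) ⟨fun i => ?_, fun n s hs => ?_⟩)
    · have e1 : ∀ w, Finsupp.linearCombination ℝ (fun n => φ n (l • b j + y)) w =
          w j * l + Finsupp.linearCombination ℝ (fun n => φ n y) w := fun w => by
        induction w using Finsupp.induction_linear with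
        | zero => simp
        | add b c h1 h2 => rw [map_add, map_add, h1, h2, Finsupp.add_apply]; ring
        | single k r =>
          simp only [Finsupp.linearCombination_single, e, Pi.single_apply, Finsupp.single_apply]
          split_ifs <;> simp [mul_add]
      have e2 : (θ • t).update j σ j = σ := by simp
      rw [e1, e2, Finsupp.update_eq_sub_add_single, map_add, map_sub, map_smul,
        Finsupp.linearCombination_single, Finsupp.linearCombination_single, hy]
      simp [Finsupp.linearCombination_apply, Finsupp.mul_sum, mul_left_comm, add_comm]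
    · rw [u]; split_ifs
      · exact le_rfl
      · nlinarith [ht.1 i, abs_nonneg (t i)]
    · have b1 := mul_le_mul_of_nonneg_left (ht.2 n s hs) (show 0 ≤ θ by linarith)
      rw [mul_sum] at b1
      by_cases c : j ∈ s
      · obtain rfl := hs j c
        refine (sum_le_sum (g := fun i => θ * |t i| + if i = j then 1 else 0) fun i _ => ?_).trans ?_
        · rw [u]; split_ifs <;> simp; exact mul_nonneg (by linarith) (abs_nonneg _)
        · rw [sum_add_distrib, sum_ite_eq', if_pos c]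
          rw [hθ, sub_mul, one_div_mul_cancel p.ne'] at b1
          linarith
      · rw [sum_congr rfl fun i hi => (u i).trans (if_neg (ne_of_mem_of_not_mem hi c))]
        nlinarith [(Nat.cast_nonneg n : (0 : ℝ) ≤ n)]
  have a2 := abs_le.1 (a1 1 abs_one)
  have a3 := abs_le.1 (a1 (-1) (by simp))
  rw [abs_le]
  rcases abs_cases l with c | c <;> constructor <;> linarith [c.1]

theorem low (a : (ℕ × Γ) →₀ ℝ) (N : ℕ) (r : ℝ) (hr : 0 ≤ r) (h1 : ∀ i ∈ a.support, i.1 < N)
    (h2 : ∀ i, |a i| ≤ r) : ‖J a‖ ≤ N * (N * r) := by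
  classical
  refine (niff _ (by positivity)).2 fun t ht => ?_
  simp only [φ_J]
  rw [Finsupp.linearCombination_apply, Finsupp.sum, ← sum_filter_of_ne (p := (· ∈ a.support))
    fun i _ h => Finsupp.mem_support_iff.2 (right_ne_zero_of_smul h),
    ← sum_fiberwise_of_maps_to (g := Prod.fst) (t := range N)
      fun i hi => mem_range.2 (h1 i (mem_filter.1 hi).2)]
  refine (abs_sum_le_sum_abs _ _).trans ((sum_le_card_nsmul _ _ (N * r) fun n hn =>
    (abs_sum_le_sum_abs _ _).trans ?_).trans_eq (by simp))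
  refine (sum_le_sum fun i _ => (abs_mul _ _).trans_le
    (mul_le_mul_of_nonneg_left (h2 i) (abs_nonneg _))).trans ?_
  rw [← sum_mul]
  exact mul_le_mul_of_nonneg_right ((ht.2 n _ fun i hi => (mem_filter.1 hi).2).trans
    (by exact_mod_cast mem_range.1 hn)) hr

theorem nol1 {A : Type} [Uncountable A] (S : lp (fun _ : A => ℝ) 1 →L[ℝ] Y Γ) (K : ℝ) (hK : 0 < K)
    (h : ∀ u, ‖u‖ ≤ K * ‖S u‖) : False := by
  classical
  choose a ha using fun j : A => dJ (S (lp.single 1 j 1)) (show 0 < 1 / (2 * K) by positivity)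
  have e : ∀ j, ∃ N : ℕ, (∀ i ∈ (a j).support, i.1 < N) ∧ ∑ i ∈ (a j).support, |a j i| ≤ N := by
    intro j
    obtain ⟨N, hN⟩ := ((a j).support.image Prod.fst).exists_nat_subset_range
    obtain ⟨M, hM⟩ := exists_nat_ge (∑ i ∈ (a j).support, |a j i|)
    exact ⟨N + M, fun i hi => (mem_range.1 (hN (mem_image_of_mem _ hi))).trans_le (by omega),
      hM.trans (by simp)⟩
  choose N h1 h2 using e
  obtain ⟨n, hn⟩ : ∃ n, (N ⁻¹' {n}).Infinite := by
    by_contra! c
    exact Set.not_countable_univ ((Set.countable_iUnion fun n => (c n).countable).mono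
      fun j _ => Set.mem_iUnion.2 ⟨N j, rfl⟩)
  obtain ⟨m, hm⟩ := exists_nat_gt (2 * K * n ^ 3)
  obtain ⟨F, F1, F2⟩ := hn.exists_subset_card_eq (m ^ 2)
  have F3 : ∀ j ∈ F, N j = n := fun j hj => F1 hj
  obtain ⟨s, s1, s2⟩ := small a F n fun j hj => F3 j hj ▸ h2 j
  have b1 := low (∑ j ∈ F, s j • a j) n (m * n) (by positivity) (fun i hi => by
    obtain ⟨j, hj, c⟩ := mem_biUnion.1 (Finsupp.support_finsetSum hi)
    exact F3 j hj ▸ h1 j i (Finsupp.support_smul c))
    fun i => abs_le_of_sq_le_sq ((s2 i).trans_eq (by rw [F2]; push_cast; ring)) (by positivity)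
  have b2 : ‖∑ j ∈ F, (lp.single 1 j (s j) : lp (fun _ : A => ℝ) 1)‖ = m ^ 2 := by
    have := lp.norm_sum_single (E := fun _ : A => ℝ) (p := 1) (by simp) s F
    simpa [s1, F2] using this
  have b3 : ‖S (∑ j ∈ F, lp.single 1 j (s j)) - J (∑ j ∈ F, s j • a j)‖ ≤ m ^ 2 * (1 / (2 * K)) := by
    rw [map_sum, map_sum, ← sum_sub_distrib]
    refine (norm_sum_le _ _).trans ((sum_le_card_nsmul _ _ (1 / (2 * K)) fun j _ => ?_).trans_eq
      (by simp [F2]))
    rw [show (lp.single 1 j (s j) : lp (fun _ : A => ℝ) 1) = s j • lp.single 1 j 1 by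
      rw [← lp.single_smul]; simp, map_smul, map_smul, ← smul_sub, norm_smul, Real.norm_eq_abs, s1,
      one_mul]
    exact (ha j).le
  have b4 := (h _).trans (mul_le_mul_of_nonneg_left ((norm_le_norm_add_norm_sub' _ _).trans
    (add_le_add b1 b3)) hK.le)
  rw [b2, mul_add, mul_left_comm K (m ^ 2), show K * (1 / (2 * K)) = 1 / 2 by field_simp] at b4
  have m0 : (0 : ℝ) < m := lt_of_le_of_lt (by positivity) hm
  nlinarith [mul_lt_mul_of_pos_left hm m0]

end Pool.Agent.H.MP_814c9d_an
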